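import Pool.Agent.H12.UT.Targets2

set_option autoImplicit false
set_option linter.unusedVariables false

open Polynomial
open Pool.Agent.H12.UT

namespace Pool.Agent.H34.UT

theorem a1_even {κ : Type} [Field κ] (a : κ) (p : κ[X]) (hp : Irreducible p)
    (ha : ¬ IsSquare (AdjoinRoot.of p a)) :
    ∀ (n : ℕ) (A B u : κ[X]), A ^ 2 - C a * B ^ 2 = p ^ n * u → ¬ p ∣ u → Even n := by
  intro n
  have hfact : Fact (Irreducible p) := ⟨hp⟩
  have hpr : Prime p := hp.prime
  induction n using Nat.strong_induction_on with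
  | _ n ih =>
    intro A B u h hu
    rcases Nat.eq_zero_or_pos n with h0 | h0
    · rw [h0]
      exact Even.zero
    · have hd : p ∣ A ^ 2 - C a * B ^ 2 := by
        rw [h]
        exact Dvd.dvd.mul_right (dvd_pow_self p (by omega)) u
      have h1 : (AdjoinRoot.mk p A) ^ 2 = AdjoinRoot.of p a * (AdjoinRoot.mk p B) ^ 2 := by
        have h2 : AdjoinRoot.mk p (A ^ 2 - C a * B ^ 2) = 0 := AdjoinRoot.mk_eq_zero.2 hd
        rw [map_sub, map_mul, map_pow, map_pow, AdjoinRoot.mk_C, sub_eq_zero] at h2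
        exact h2
      have hB : p ∣ B := by
        by_contra hB
        have hB' : AdjoinRoot.mk p B ≠ 0 := fun h2 => hB (AdjoinRoot.mk_eq_zero.1 h2)
        apply ha
        refine ⟨AdjoinRoot.mk p A / AdjoinRoot.mk p B, ?_⟩
        rw [div_mul_div_comm, ← pow_two, ← pow_two, h1, mul_div_assoc,
          div_self (pow_ne_zero 2 hB'), mul_one]
      have hA : p ∣ A := by
        obtain ⟨B1, hB1⟩ := hB
        have h2 : p ∣ A ^ 2 := by
          have h3 : A ^ 2 = (A ^ 2 - C a * B ^ 2) + C a * B ^ 2 := by ring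
          rw [h3]
          refine dvd_add hd ?_
          rw [hB1]
          exact ⟨C a * p * B1 ^ 2, by ring⟩
        exact hpr.dvd_of_dvd_pow h2
      obtain ⟨A1, rfl⟩ := hA
      obtain ⟨B1, rfl⟩ := hB
      have h4 : p ^ 2 * (A1 ^ 2 - C a * B1 ^ 2) = p ^ n * u := by
        rw [← h]
        ring
      rcases Nat.lt_or_ge n 2 with hn | hn
      · exfalso
        have hn1 : n = 1 := by omega
        subst hn1
        apply hu
        have h5 : p * (p * (A1 ^ 2 - C a * B1 ^ 2)) = p * u := by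
          rw [pow_one] at h4
          rw [← h4]
          ring
        exact ⟨_, (mul_left_cancel₀ hp.ne_zero h5).symm⟩
      · obtain ⟨m, rfl⟩ : ∃ m, n = m + 2 := ⟨n - 2, by omega⟩
        have h5 : p ^ 2 * (A1 ^ 2 - C a * B1 ^ 2) = p ^ 2 * (p ^ m * u) := by
          rw [h4]
          ring
        have h6 := mul_left_cancel₀ (pow_ne_zero 2 hp.ne_zero) h5
        have h7 := ih m (by omega) A1 B1 u h6 hu
        exact h7.add (by decide)

theorem pf_A1 : T_A1 := by
  intro κ _ a f p hf hN hp hodd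
  by_contra ha
  obtain ⟨A, B, D, hD, hDf⟩ := hN
  have hpr : Prime p := hp.prime
  obtain ⟨f', hf1, hf2⟩ := (FiniteMultiplicity.of_prime_left hpr hf).exists_eq_pow_mul_and_not_dvd
  obtain ⟨D', hD1, hD2⟩ := (FiniteMultiplicity.of_prime_left hpr hD).exists_eq_pow_mul_and_not_dvd
  set i := multiplicity p D with hi
  set j := multiplicity p f with hj
  have h1 : A ^ 2 - C a * B ^ 2 = p ^ (2 * i + j) * (D' ^ 2 * f') := by
    rw [← hDf, hf1, hD1]
    ring
  have h2 : ¬ p ∣ D' ^ 2 * f' := by
    intro h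
    rcases hpr.dvd_or_dvd h with h | h
    · exact hD2 (hpr.dvd_of_dvd_pow h)
    · exact hf2 h
  have h3 := a1_even a p hp ha _ A B _ h1 h2
  rw [Nat.even_add] at h3
  have h4 : Even j := h3.1 (even_two_mul i)
  exact (Nat.not_even_iff_odd.2 hodd) h4

end Pool.Agent.H34.UT
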